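import Pool.Agent.W420.NS.Flow

set_option autoImplicit false

namespace Pool.Agent.W111.NS

open Pool.Agent.W420.NS

theorem faith : S_FAITH := by
  classical
  intro V _ G C h
  obtain ⟨tail, head, f, hends, hval, hcons⟩ := h
  haveI : Fintype (G \ C).edgeSet := Fintype.ofFinite _
  -- choose the ends
  have hch : ∀ e : (G \ C).edgeSet, ∃ ab : V × V, (e : Sym2 V) = s(ab.1, ab.2) ∧
      C.connectedComponentMk ab.1 = tail e ∧ C.connectedComponentMk ab.2 = head e := by
    rintro ⟨e, he⟩
    induction e using Sym2.ind with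
    | _ x y =>
      have h1 := hends ⟨s(x, y), he⟩
      unfold contractedEnds at h1
      rw [Sym2.map_mk] at h1
      rcases Sym2.eq_iff.1 h1 with ⟨h2, h3⟩ | ⟨h2, h3⟩
      · exact ⟨(x, y), rfl, h2, h3⟩
      · exact ⟨(y, x), Sym2.eq_swap, h3, h2⟩
  choose ab hab hta hhe using hch
  set g : V → V → ℤ := fun u v => ∑ e : (G \ C).edgeSet,
    f e * ((if u = (ab e).1 ∧ v = (ab e).2 then 1 else 0) - (if u = (ab e).2 ∧ v = (ab e).1 then 1 else 0)) with hg
  have hmem : ∀ (e : (G \ C).edgeSet) (u v : V), ((u = (ab e).1 ∧ v = (ab e).2) ∨ (u = (ab e).2 ∧ v = (ab e).1)) →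
      (e : Sym2 V) = s(u, v) := by
    rintro e u v (⟨rfl, rfl⟩ | ⟨rfl, rfl⟩)
    · exact hab e
    · rw [Sym2.eq_swap]
      exact hab e
  refine ⟨g, ?_, ?_, ?_, ?_⟩
  · intro u v
    simp only [hg]
    rw [← Finset.sum_neg_distrib]
    refine Finset.sum_congr rfl fun e _ => ?_
    have h1 : (v = (ab e).1 ∧ u = (ab e).2) ↔ (u = (ab e).2 ∧ v = (ab e).1) := and_comm
    have h2 : (v = (ab e).2 ∧ u = (ab e).1) ↔ (u = (ab e).1 ∧ v = (ab e).2) := and_comm
    simp only [h1, h2]
    ring
  · intro u v huv
    have hne : u ≠ v := huv.ne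
    have hsingle : g u v = f ⟨s(u, v), huv⟩ *
        ((if u = (ab ⟨s(u, v), huv⟩).1 ∧ v = (ab ⟨s(u, v), huv⟩).2 then 1 else 0) -
          (if u = (ab ⟨s(u, v), huv⟩).2 ∧ v = (ab ⟨s(u, v), huv⟩).1 then 1 else 0)) := by
      simp only [hg]
      refine Finset.sum_eq_single_of_mem (⟨s(u, v), huv⟩ : (G \ C).edgeSet) (Finset.mem_univ _) ?_
      intro e _ hne'
      have h1 : ¬ (u = (ab e).1 ∧ v = (ab e).2) := fun h => hne' (Subtype.ext (hmem e u v (Or.inl h)))
      have h2 : ¬ (u = (ab e).2 ∧ v = (ab e).1) := fun h => hne' (Subtype.ext (hmem e u v (Or.inr h)))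
      rw [if_neg h1, if_neg h2]
      ring
    have hf := hval ⟨s(u, v), huv⟩
    have hor : g u v = f ⟨s(u, v), huv⟩ ∨ g u v = - f ⟨s(u, v), huv⟩ := by
      have h3 := hab ⟨s(u, v), huv⟩
      rcases Sym2.eq_iff.1 h3 with ⟨h1, h2⟩ | ⟨h1, h2⟩
      · left
        rw [hsingle, if_pos ⟨h1, h2⟩, if_neg (fun h => hne (h1.trans h.2.symm))]
        ring
      · right
        rw [hsingle, if_neg (fun h => hne (h.1.trans h2.symm)), if_pos ⟨h1, h2⟩]
        ring
    rcases hor with h | h <;> rw [h] <;>
      rcases hf with h' | h' | h' | h' | h' | h' <;> rw [h'] <;> norm_num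
  · intro u v huv
    simp only [hg]
    refine Finset.sum_eq_zero fun e _ => ?_
    have h1 : ¬ (u = (ab e).1 ∧ v = (ab e).2) := fun h => huv (by
      have h2 := e.2
      rw [hmem e u v (Or.inl h)] at h2
      exact h2)
    have h2 : ¬ (u = (ab e).2 ∧ v = (ab e).1) := fun h => huv (by
      have h2 := e.2
      rw [hmem e u v (Or.inr h)] at h2
      exact h2)
    rw [if_neg h1, if_neg h2]
    ring
  · intro K
    have hrow : ∀ u : V, ∑ v, g u v = ∑ e : (G \ C).edgeSet,
        f e * ((if u = (ab e).1 then 1 else 0) - (if u = (ab e).2 then 1 else 0)) := by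
      intro u
      simp only [hg]
      rw [Finset.sum_comm]
      refine Finset.sum_congr rfl fun e _ => ?_
      rw [← Finset.mul_sum, Finset.sum_sub_distrib]
      congr 1
      have h1 : ∀ (p : Prop) [Decidable p] (x : V), ∑ v : V, (if p ∧ v = x then (1 : ℤ) else 0) =
          if p then 1 else 0 := by
        intro p _ x
        by_cases hp : p
        · simp [hp]
        · simp [hp]
      rw [h1, h1]
    have hsum : ∑ u, (if C.connectedComponentMk u = K then ∑ v, g u v else 0) =
        ∑ e : (G \ C).edgeSet, f e * ((if tail e = K then 1 else 0) - (if head e = K then 1 else 0)) := by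
      have h1 : ∀ u : V, (if C.connectedComponentMk u = K then ∑ v, g u v else 0) =
          ∑ e : (G \ C).edgeSet, f e *
            ((if u = (ab e).1 then (if C.connectedComponentMk u = K then 1 else 0) else 0) -
              (if u = (ab e).2 then (if C.connectedComponentMk u = K then 1 else 0) else 0)) := by
        intro u
        by_cases hu : C.connectedComponentMk u = K
        · simp only [if_pos hu]
          exact hrow u
        · simp [if_neg hu]
      rw [Finset.sum_congr rfl fun u _ => h1 u, Finset.sum_comm]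
      refine Finset.sum_congr rfl fun e _ => ?_
      rw [← Finset.mul_sum, Finset.sum_sub_distrib, Finset.sum_ite_eq' , Finset.sum_ite_eq']
      simp only [Finset.mem_univ, if_true, hta, hhe]
    have hc := hcons K
    rw [finsum_eq_sum_of_fintype, finsum_eq_sum_of_fintype] at hc
    simp only [finsum_eq_if] at hc
    have h2 : ∑ e : (G \ C).edgeSet, f e * ((if tail e = K then 1 else 0) - (if head e = K then 1 else 0)) =
        ∑ e : (G \ C).edgeSet, (if tail e = K then f e else 0) -
          ∑ e : (G \ C).edgeSet, (if head e = K then f e else 0) := by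
      rw [← Finset.sum_sub_distrib]
      refine Finset.sum_congr rfl fun e _ => ?_
      by_cases h3 : tail e = K <;> by_cases h4 : head e = K <;> simp [h3, h4]
    have h3 := hsum.trans (h2.trans (sub_eq_zero.2 hc.symm))
    convert h3 using 1

end Pool.Agent.W111.NS
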